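import Pool.Agent.Lib.MP_21f752_an.FAll

namespace Pool.Agent.Lib.MP_21f752_an.Old.Rigidity

open UpperHalfPlane Pool.Agent.Lib.MP_21f752_an
open scoped MatrixGroups

theorem result (Γ : Subgroup SL(2, ℝ)) [DiscreteTopology Γ]
    (hfree : ∀ γ ∈ Γ, ∀ z : ℍ, γ • z = z → ∀ w : ℍ, γ • w = w)
    (hco : ∃ K : Set ℍ, IsCompact K ∧ ∀ z : ℍ, ∃ γ ∈ Γ, γ • z ∈ K)
    (f b : ℍ → ℝ) (hf : SmoothH f) (hb : SmoothH b)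
    (hfi : ∀ γ ∈ Γ, ∀ z, f (γ • z) = f z) (hbi : ∀ γ ∈ Γ, ∀ z, b (γ • z) = b z)
    (k : ℝ) (hk : 0 < k) (hnc : NoConj f b k) (hent : ZeroEntropy Γ f b k) :
    (∃ κ, ∀ z, curv f z = κ) ∧ ∃ β, ∀ z, b z = β :=
  fin_of rigid_sys Γ hfree hco f b hf hb hfi hbi k hk hnc hent

end Pool.Agent.Lib.MP_21f752_an.Old.Rigidity
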